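import Pool.Agent.R32.GT.Fam

set_option autoImplicit false

/-!
# MP_10c741_co, Question 1: `k(t) = 6 t - 1` for every `t ≥ 1`

For every `t ≥ 1` the largest `k` such that some `k`-regular graph has geometric thickness exactly
`t` is `6 t - 1`.  In particular `k(t) ≠ 5 t` for every `t ≥ 2`.
-/

namespace Pool.Agent.Results.MP_10c741_co.MaxRegularDegree

open Pool.Agent.R32.GT

/-- transport of a layered drawing along a bijection of the vertex set -/
lemma transport {V : Type} {G : SimpleGraph V} {n : ℕ} (e : Fin n ≃ V) {s : ℕ}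
    (h : HasLayers G s) : HasLayers (G.comap e) s := by
  obtain ⟨p, c, ⟨hinj, havoid⟩, hc, hplane⟩ := h
  refine ⟨fun v => p (e v), fun q => c (q.map e), ⟨fun u v h => e.injective (hinj h), ?_⟩, ?_, ?_⟩
  · intro u v w huv hz
    rcases havoid (e u) (e v) (e w) huv hz with h | h
    · exact Or.inl (e.injective h)
    · exact Or.inr (e.injective h)
  · intro q hq
    induction q using Sym2.ind with
    | _ u v => exact hc s(e u, e v) hq
  · intro u v x y huv hxy hne hcc z hz hz'
    obtain ⟨w, w1, w2, w3⟩ := hplane (e u) (e v) (e x) (e y) huv hxy (by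
      intro h
      apply hne
      rcases Sym2.eq_iff.1 h with ⟨h1, h2⟩ | ⟨h1, h2⟩
      · rw [e.injective h1, e.injective h2]
      · rw [e.injective h1, e.injective h2, Sym2.eq_swap]) hcc z hz hz'
    refine ⟨e.symm w, ?_, ?_, ?_⟩
    · rcases w1 with rfl | rfl
      · exact Or.inl (e.symm_apply_apply _)
      · exact Or.inr (e.symm_apply_apply _)
    · rcases w2 with rfl | rfl
      · exact Or.inl (e.symm_apply_apply _)
      · exact Or.inr (e.symm_apply_apply _)
    · simp only [e.apply_symm_apply]; exact w3

lemma transport_degree {V : Type} {G : SimpleGraph V} {n : ℕ} (e : Fin n ≃ V) {k : ℕ}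
    (h : ∀ v, (G.neighborSet v).ncard = k) (v : Fin n) :
    ((G.comap e).neighborSet v).ncard = k := by
  rw [← h (e v), ← Set.ncard_image_of_injective _ e.injective]
  congr 1
  ext w
  simp only [Set.mem_image, SimpleGraph.mem_neighborSet, SimpleGraph.comap_adj]
  constructor
  · rintro ⟨x, hx, rfl⟩; exact hx
  · intro hw; exact ⟨e.symm w, by rw [e.apply_symm_apply]; exact hw, e.apply_symm_apply w⟩

/-- **Q1.** `k(t) = 6 t - 1`. -/
theorem result (t : ℕ) (ht : 1 ≤ t) :
    IsGreatest {k : ℕ | ∃ (n : ℕ) (G : SimpleGraph (Fin n)),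
      (∀ v, (G.neighborSet v).ncard = k) ∧ geometricThickness G = t} (6 * t - 1) := by
  classical
  constructor
  · haveI : NeZero t := ⟨by omega⟩
    obtain ⟨M, x, y, hx, hy, hxi, hyi, hp⟩ := HH_coords t
    let c : BV t → Fin t := fun v => ⟨cc t v.1, cc_lt (by omega) v.1⟩
    let G := TP c (fun a : Fin t => HH t a)
    have hL : HasLayers G t := TP_layers c _ hx hy hxi hyi (fun a => hp a)
    have hd : ∀ u, (G.neighborSet u).ncard = 6 * t - 1 := TP_degree c _ (by
      intro a v
      rw [HH_degree a.2 v]
      simp only [c, Fin.ext_iff])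
    haveI : Fintype (Fin t → BV t) := Fintype.ofFinite _
    let e := (Fintype.equivFin (Fin t → BV t)).symm
    have hL' := transport e hL
    have hd' := transport_degree e hd
    refine ⟨_, G.comap e, hd', ?_⟩
    unfold geometricThickness
    apply le_antisymm
    · exact Nat.sInf_le hL'
    · have hmem : HasLayers (G.comap e) (sInf {s | HasLayers (G.comap e) s}) :=
        Nat.sInf_mem (s := {s | HasLayers (G.comap e) s}) ⟨t, hL'⟩
      haveI : Nonempty (Fin (Fintype.card (Fin t → BV t))) := ⟨e.symm (fun _ => Classical.arbitrary _)⟩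
      have := regular_lt (by omega) hd' hmem
      omega
  · rintro k ⟨n, G, hd, hG⟩
    by_contra hcon
    have hne : {s | HasLayers G s}.Nonempty := by
      rw [Set.nonempty_iff_ne_empty]
      intro h0
      unfold geometricThickness at hG
      rw [h0, Nat.sInf_empty] at hG
      omega
    have hmem : HasLayers G (sInf {s | HasLayers G s}) := Nat.sInf_mem hne
    have hG' : sInf {s | HasLayers G s} = t := hG
    rw [hG'] at hmem
    rcases Nat.eq_zero_or_pos n with rfl | hn
    · have h0 : HasLayers G 0 := by
        obtain ⟨p, c, h1, -, h3⟩ := hmem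
        refine ⟨p, c, h1, ?_, h3⟩
        intro q _
        induction q using Sym2.ind with
        | _ u v => exact u.elim0
      have := Nat.sInf_le h0 (s := {s | HasLayers G s})
      omega
    · haveI : Nonempty (Fin n) := ⟨⟨0, hn⟩⟩
      have := regular_lt (by omega) hd hmem
      omega

end Pool.Agent.Results.MP_10c741_co.MaxRegularDegree
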